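import Pool.Agent.Q280.ML.OMA
import Pool.Agent.Q280.SD.B

/-!
# Grothendieck's period conjecture for 1-motives over the algebraic numbers: the smallest family over which it holds exactly

`Λ c`, `c ∈ ι`, are pairs of periods `ω₁, ω₂` (independent over `ℝ`) with algebraic invariants `g₂`, `g₃`, with the lattices
`Ω_c = (Λ c).lattice = ℤ ω₁ + ℤ ω₂` and the elliptic curves `E_c = ℂ / Ω_c` over `ℚ̄`. The index set `ι` is arbitrary; the
curves are supposed to be pairwise non-isogenous, for instance representatives of all isogeny classes of elliptic curves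
over `ℚ̄` (this is not used in the proof). `℘[L]`, `L.g₂`, `L.g₃` are Mathlib's Weierstrass function and invariants of
`L = Λ c`. The definitions of `ζ`, `k L` (the field `ℚ ⊗ End(ℂ / Ω)`), `T₀ = 2πi ℚ`, `P₀ L = Ω ⊗ ℚ`, `trd` (transcendence
degree of the field generated by a set) and `dimMod` (dimension of a span modulo a subspace) are in
`Pool.Agent.Y776.EtDefs`.

Every 1-motive `M = [u : ℤⁿ → 𝔾ₘ^s × ∏ E_c^(g_c)]` over `ℚ̄` is given by the logarithms of the points `u(e_l)`: numbers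
`t_i ∈ Log` (for the coordinates in `𝔾ₘ`) and, for every `c` in a finite set `S`, numbers `p_{c,i} ∈ ELog` (for the
coordinates in `E_c`). The periods of `M` are (up to algebraic numbers) the numbers `periods S t p`, and `galDim S t p` is
the dimension of the motivic Galois group of `M` (a known formula). `Conj Λ 0` is the conjecture for all these 1-motives (the
transcendence degree is at least the dimension of the group; the other inequality is known), and `Conj Λ C` is the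
conjecture with the error `C`.

A family `F = (T, (P_c))` consists of a `ℚ`-space `2πi ℚ ≤ T ≤ Log` and of `k_c`-spaces `P_c ≤ ELog` which are zero or
contain `Ω_c ⊗ ℚ`; here `P_c = 0` means that the curve `E_c` does not occur. The finite families correspond to the
categories generated by the 1-motives above, and the arbitrary families to the unions of such categories.

The theorem: there is a smallest family `B` such that the conjecture holds exactly over `B`. The conjecture holds for all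
these 1-motives if and only if `B` is the family `(2πi ℚ, 0)` of the Tate motives, and it holds up to a bounded error if and
only if `B` is finite.

## The proof (in `Pool.Agent.Q280.ML`)

The dimension of the motivic Galois group minus the transcendence degree of the periods is a supermodular function on the
modular lattice of the families. The families all of whose proper subfamilies have a smaller value form a directed set, and
`B` is its union.
-/

set_option autoImplicit false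

open Module
open scoped PeriodPair

namespace Pool.Agent.Results.MP_ae0f86_nt.CanonicalFamily

open Pool.Agent.Y776.Et (ζ k trd dimMod T₀ P₀)

variable {ι : Type}

/-- the periods and the quasi-periods `ηᵢ = 2 ζ(ωᵢ / 2)` of a curve -/
noncomputable def per (L : PeriodPair) : Set ℂ := {L.ω₁, L.ω₂, 2 * ζ L (L.ω₁ / 2), 2 * ζ L (L.ω₂ / 2)}

/-- `t` and `e^t` -/
noncomputable def mval (t : ℂ) : Set ℂ := {t, Complex.exp t}

/-- `p`, `℘(p)` and `ζ(p)` -/
noncomputable def eval (L : PeriodPair) (p : ℂ) : Set ℂ := {p, ℘[L] p, ζ L p}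

/-- the periods of the 1-motive given by `t` and by `p c`, `c ∈ S`: `2πi`, the `t_i`, and for every `c ∈ S` the periods
`ω₁, ω₂`, the quasi-periods `η₁, η₂`, the `p_{c,i}` and the `ζ(p_{c,i})` -/
noncomputable def periods (Λ : ι → PeriodPair) (S : Finset ι) {s : ℕ} {n : ι → ℕ} (t : Fin s → ℂ)
    (p : ∀ c, Fin (n c) → ℂ) : Set ℂ :=
  {2 * Real.pi * Complex.I} ∪ {x | (∃ i, x = t i) ∨ ∃ c ∈ S, x ∈ per (Λ c) ∨ ∃ i, x = p c i ∨ x = ζ (Λ c) (p c i)}

/-- `1 + dim ⟨t⟩ + ∑ (4 / [k_c : ℚ] - 1 + 2 dim ⟨p_c⟩)`, the dimension of the motivic Galois group; `4 / [k_c : ℚ] - 1` is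
`3` for a curve without complex multiplication and `1` otherwise, `⟨t⟩` is the `ℚ`-span modulo `2πi ℚ`, and `⟨p_c⟩` the
`k_c`-span modulo `Ω_c ⊗ ℚ` -/
noncomputable def galDim (Λ : ι → PeriodPair) (S : Finset ι) {s : ℕ} {n : ι → ℕ} (t : Fin s → ℂ)
    (p : ∀ c, Fin (n c) → ℂ) : ℕ :=
  1 + dimMod T₀ t + ∑ c ∈ S, (4 / finrank ℚ (k (Λ c)) - 1 + 2 * dimMod (P₀ (Λ c)) (p c))

/-- The conjecture with the error `C` for the 1-motives `[ℤⁿ → 𝔾ₘ^s × ∏ E_c^(g_c)]` over `ℚ̄`. For `C = 0` this is the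
conjecture for them. -/
def Conj (Λ : ι → PeriodPair) (C : ℕ) : Prop :=
  ∀ (S : Finset ι) (s : ℕ) (n : ι → ℕ) (t : Fin s → ℂ) (p : ∀ c, Fin (n c) → ℂ),
    (∀ i, IsAlgebraic ℚ (Complex.exp (t i))) →
    (∀ c ∈ S, ∀ i, p c i ∉ (Λ c).lattice ∧ IsAlgebraic ℚ (℘[Λ c] (p c i))) →
    ((galDim Λ S t p : ℕ) : Cardinal) ≤ trd ℚ (periods Λ S t p) + C

section

variable {K : Type} [Field K] [Module K ℂ]

/-- `P` is zero or contains `Q` -/
def ZeroOrGe (Q P : Submodule K ℂ) : Prop := P = ⊥ ∨ Q ≤ P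

/-- `P` has finite dimension -/
def Fd (P : Submodule K ℂ) : Prop := FiniteDimensional K P

/-- the dimension of `P` -/
noncomputable def dim (P : Submodule K ℂ) : ℕ := finrank K P

/-- `z₁, …, zₙ` are independent modulo `P` -/
def IndepMod (P : Submodule K ℂ) {n : ℕ} (z : Fin n → ℂ) : Prop := LinearIndependent K (fun i => P.mkQ (z i))

end

/-- A family: a `ℚ`-space `T ∋ 2πi` of logarithms of algebraic numbers, and for every `c` a `k_c`-space `P_c` of
elliptic logarithms of algebraic points which is zero or contains `Ω_c ⊗ ℚ`. -/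
@[ext] structure Fam (Λ : ι → PeriodPair) : Type where
  T : Submodule ℚ ℂ
  P : ∀ c, Submodule (k (Λ c)) ℂ
  T_ge : T₀ ≤ T
  T_le : ∀ t ∈ T, IsAlgebraic ℚ (Complex.exp t)
  P_ge : ∀ c, ZeroOrGe (P₀ (Λ c)) (P c)
  P_le : ∀ c, ∀ p ∈ P c, p ∈ (Λ c).lattice ∨ IsAlgebraic ℚ (℘[Λ c] p)

variable {Λ : ι → PeriodPair}

/-- inclusion of families -/
def Fam.Le (F G : Fam Λ) : Prop := F.T ≤ G.T ∧ ∀ c, F.P c ≤ G.P c

/-- the intersection of two families -/
noncomputable def Fam.inter (F G : Fam Λ) : Fam Λ :=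
  ⟨F.T ⊓ G.T, fun c => F.P c ⊓ G.P c, le_inf F.T_ge G.T_ge, fun t ht => F.T_le t ht.1, fun c => by
    rcases F.P_ge c with h | h
    · exact Or.inl (by rw [h, bot_inf_eq])
    · rcases G.P_ge c with h' | h'
      · exact Or.inl (by rw [h', inf_bot_eq])
      · exact Or.inr (le_inf h h'), fun c p hp => F.P_le c p hp.1⟩

theorem alg_T₀ {t : ℂ} (ht : t ∈ T₀) : IsAlgebraic ℚ (Complex.exp t) := by
  have h1 : T₀ ≤ Pool.Agent.Q280.ML.LogQ := by
    refine Submodule.span_le.mpr ?_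
    rintro _ rfl
    change IsAlgebraic ℚ _
    rw [Complex.exp_two_pi_mul_I]
    exact isAlgebraic_one
  exact h1 ht

/-- the family `(2πi ℚ, 0)` -/
noncomputable def Fam.base (Λ : ι → PeriodPair) : Fam Λ :=
  ⟨T₀, fun _ => ⊥, le_rfl, fun _ ht => alg_T₀ ht, fun _ => Or.inl rfl, fun c p hp => Or.inl (by
    rw [Submodule.mem_bot] at hp
    rw [hp]
    exact Submodule.zero_mem _)⟩

/-- finite families -/
def Fam.IsFinite (F : Fam Λ) : Prop := Fd F.T ∧ (∀ c, Fd (F.P c)) ∧ {c | F.P c ≠ ⊥}.Finite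

/-- The numbers `t`, `exp(t)` with `t ∈ T` (the numbers `exp(t)` are algebraic). -/
noncomputable def numbers₁ (T : Submodule ℚ ℂ) : Set ℂ := {x | ∃ t ∈ T, x ∈ mval t}

/-- The numbers `g₂`, `g₃`, and `p`, `℘(p)`, `ζ(p)` with `p ∈ P`; `℘` and `ζ` are only taken outside the lattice (the
numbers `g₂`, `g₃`, `℘(p)` are algebraic). -/
noncomputable def numbers₂ (L : PeriodPair) (P : Submodule (k L) ℂ) : Set ℂ :=
  {x | x = L.g₂ ∨ x = L.g₃ ∨ x ∈ P ∨ ∃ p ∈ P, p ∉ L.lattice ∧ x ∈ eval L p}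

/-- The numbers of a family: those of `T`, and those of `P_c` for all `c` with `P_c ≠ 0`. -/
noncomputable def Fam.numbers (F : Fam Λ) : Set ℂ :=
  numbers₁ F.T ∪ {x | ∃ c, F.P c ≠ ⊥ ∧ x ∈ numbers₂ (Λ c) (F.P c)}

/-- `dim T + ∑ (2 dim P_c - 1)`, the sum over the `c` with `P_c ≠ 0`: the dimension of the motivic Galois group of the
category generated by the family -/
noncomputable def Fam.weight (F : Fam Λ) : ℕ := dim F.T + ∑ᶠ c, (2 * dim (F.P c) - 1)

/-- The defect: the dimension of the motivic Galois group minus the transcendence degree. -/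
noncomputable def Fam.defect (F : Fam Λ) : ℤ := (F.weight : ℤ) - ((trd ℚ F.numbers).toNat : ℤ)

/-- a finite family all of whose proper subfamilies have a smaller defect -/
def Fam.Tight (F : Fam Λ) : Prop := F.IsFinite ∧ ∀ F' : Fam Λ, F'.Le F → F' ≠ F → F'.defect < F.defect

open Classical in
/-- the number of new periods of the curve `E_c` over the family `B`: `4 / [k_c : ℚ] - 1` if `P_c = 0`, and none otherwise -/
noncomputable def Fam.newPeriods (B : Fam Λ) (c : ι) : ℕ := if B.P c = ⊥ then 4 / finrank ℚ (k (Λ c)) - 1 else 0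

/-- the numbers `t_i`, `p_{c,i}`, `ζ(p_{c,i})` and (for the new curves, i.e. if `P_c = 0`) `ω₁, ω₂, η₁, η₂` -/
def Fam.newNumbers (B : Fam Λ) (S : Finset ι) {s : ℕ} {n : ι → ℕ} (t : Fin s → ℂ) (p : ∀ c, Fin (n c) → ℂ) : Set ℂ :=
  {x | (∃ i, x = t i) ∨ ∃ c ∈ S, (∃ i, x = p c i ∨ x = ζ (Λ c) (p c i)) ∨ (B.P c = ⊥ ∧ x ∈ per (Λ c))}

/-- `t₁, …, t_s` are logarithms of algebraic numbers, `ℚ`-independent modulo `T`, and for `c ∈ S` the `n_c` numbers
`p_{c,i} ∉ Ω_c` are elliptic logarithms of algebraic points, `k_c`-independent modulo `P_c + Ω_c ⊗ ℚ` -/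
def Fam.Independent (B : Fam Λ) (S : Finset ι) {s : ℕ} {n : ι → ℕ} (t : Fin s → ℂ) (p : ∀ c, Fin (n c) → ℂ) : Prop :=
  ((∀ i, IsAlgebraic ℚ (Complex.exp (t i))) ∧ IndepMod B.T t) ∧
    ∀ c ∈ S, (∀ i, p c i ∉ (Λ c).lattice ∧ IsAlgebraic ℚ (℘[Λ c] (p c i))) ∧ IndepMod (B.P c ⊔ P₀ (Λ c)) (p c)

/-- The conjecture holds exactly over the family `B`: for independent `t`, `p` in the above sense
`s + ∑ (2 n_c + (4 / [k_c : ℚ] - 1 if P_c = 0))` of the new numbers are algebraically independent over the field generated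
by the numbers of `B`. -/
def Fam.ExactOver (B : Fam Λ) : Prop :=
  ∀ (S : Finset ι) (s : ℕ) (n : ι → ℕ) (t : Fin s → ℂ) (p : ∀ c, Fin (n c) → ℂ), B.Independent S t p →
    ∃ w : Fin (s + ∑ c ∈ S, (2 * n c + B.newPeriods c)) → ℂ, (∀ l, w l ∈ B.newNumbers S t p) ∧
      AlgebraicIndependent (IntermediateField.adjoin ℚ B.numbers) w

section

open Pool.Agent.Q280.ML Pool.Agent.Q280.ML.OM

variable (H : ∀ c, IsAlgebraic ℚ (Λ c).g₂ ∧ IsAlgebraic ℚ (Λ c).g₃)

/-- the family of all logarithms of algebraic points -/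
noncomputable def tp : XX Λ := ⟨(LogQ, fun c => ELs (Λ c) (H c).1 (H c).2), fun c => Or.inr fun p hp => by
  obtain ⟨n, hn, h⟩ := hp
  exact Pool.Agent.W245.EB.torsion_EL (H c).1 (H c).2 hn h⟩

theorem hu : Pool.Agent.TH813.Ell.P₁ ≤ (tp H).1.1 := fun _ ht => alg_T₀ ht

theorem hu' (c : ι) : Pool.Agent.TH813.Ell.P₂ (Λ c) ≤ (tp H).1.2 c := fun p hp => by
  obtain ⟨n, hn, h⟩ := hp
  exact Pool.Agent.W245.EB.torsion_EL (H c).1 (H c).2 hn h

/-- a family as an element of the lattice -/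
noncomputable def tx (F : Fam Λ) : XX Λ := ⟨(F.T, F.P), F.P_ge⟩

theorem le_tp (F : Fam Λ) : tx F ≤ tp H := ⟨F.T_le, F.P_le⟩

/-- an element of the lattice as a family -/
noncomputable def fx (F : XX Λ) (h : Pool.Agent.TH813.Ell.P₁ ≤ F.1.1) (hF : F ≤ tp H) : Fam Λ :=
  ⟨F.1.1, F.1.2, h, hF.1, F.2, hF.2⟩

theorem tx_ge (F : Fam Λ) : Pool.Agent.TH813.Ell.P₁ ≤ (tx F).1.1 := F.T_ge

theorem tx_fx (F : XX Λ) (h : Pool.Agent.TH813.Ell.P₁ ≤ F.1.1) (hF : F ≤ tp H) : tx (fx H F h hF) = F := rfl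

theorem le_iff {F G : Fam Λ} : F.Le G ↔ tx F ≤ tx G := Iff.rfl

theorem tx_inj {F G : Fam Λ} (h : tx F = tx G) : F = G := by
  have h1 : (tx F).1 = (tx G).1 := congrArg Subtype.val h
  exact Fam.ext (congrArg Prod.fst h1) (congrArg Prod.snd h1)

theorem fin_iff {F : Fam Λ} : finO (tp H) (tx F) ↔ F.IsFinite :=
  ⟨fun h => h.2.2, fun h => ⟨F.T_ge, le_tp H _, h⟩⟩

theorem numbers_eq (F : Fam Λ) : F.numbers = PN (tx F) := by
  ext x
  constructor
  · rintro (⟨t, ht, h | h⟩ | ⟨c, hc, h⟩)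
    · exact Or.inl (Or.inl (h ▸ ht))
    · exact Or.inl (Or.inr ⟨t, ht, (Set.mem_singleton_iff.mp h).symm⟩)
    · refine Or.inr ⟨c, hc, ?_⟩
      rcases h with h | h | h | ⟨p, hp, hp', h | h | h⟩
      · exact Or.inl (Or.inl h)
      · exact Or.inl (Or.inr h)
      · exact Or.inr (Or.inl h)
      · exact Or.inr (Or.inl (h ▸ hp))
      · exact Or.inr (Or.inr (Or.inr ⟨p, ⟨hp, hp'⟩, h.symm⟩))
      · exact Or.inr (Or.inr (Or.inl ⟨p, ⟨hp, hp'⟩, (Set.mem_singleton_iff.mp h).symm⟩))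
  · rintro ((h | ⟨t, ht, h⟩) | ⟨c, hc, h⟩)
    · exact Or.inl ⟨x, h, Or.inl rfl⟩
    · exact Or.inl ⟨t, ht, Or.inr h.symm⟩
    · refine Or.inr ⟨c, hc, ?_⟩
      rcases h with (h | h) | h | ⟨p, ⟨hp, hp'⟩, h⟩ | ⟨p, ⟨hp, hp'⟩, h⟩
      · exact Or.inl h
      · exact Or.inr (Or.inl h)
      · exact Or.inr (Or.inr (Or.inl h))
      · exact Or.inr (Or.inr (Or.inr ⟨p, hp, hp', Or.inr (Or.inr h.symm)⟩))
      · exact Or.inr (Or.inr (Or.inr ⟨p, hp, hp', Or.inr (Or.inl h.symm)⟩))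

theorem wc_P₂ (L : PeriodPair) : wc L (Pool.Agent.TH813.Ell.P₂ L) = 4 / finrank ℚ (k L) - 1 := by
  unfold wc
  rw [Pool.Agent.TH813.Ell.four_div]

theorem mem_ZO {B : Fam Λ} {S : Finset ι} {s : ℕ} {n : ι → ℕ} {t : Fin s → ℂ} {p : ∀ c, Fin (n c) → ℂ} {x : ℂ} :
    x ∈ ZO (tx B) S t p ↔ (∃ i, x ∈ mval (t i)) ∨
      ∃ c ∈ S, (∃ i, x ∈ eval (Λ c) (p c i)) ∨ (B.P c = ⊥ ∧ x ∈ perO (Λ c)) := by
  unfold mval eval ZO
  simp only [ex, pts, Set.mem_union, Set.mem_iUnion, Set.mem_insert_iff, Set.mem_singleton_iff,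
    Set.mem_ofPred_eq]
  rfl

theorem transc {F : IntermediateField ℚ ℂ} {m : ℕ} {w : Fin m → ℂ} (h : AlgebraicIndependent F w) (l : Fin m) :
    ¬ IsAlgebraic ℚ (w l) := fun h1 => h.transcendental l (h1.extendScalars (algebraMap ℚ F).injective)

include H in
theorem exact_eq (B : Fam Λ) : B.ExactOver ↔ ExactO (tp H) (tx B) := by
  classical
  have hnw : ∀ c, B.newPeriods c = nw (tx B) c := fun c => by
    unfold Fam.newPeriods nw
    rw [wc_P₂]
    rfl
  unfold Fam.ExactOver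
  rw [numbers_eq]
  constructor
  · intro h S s n t p ht0 hp ht hp'
    obtain ⟨w, h1, h2⟩ := h S s n t p ⟨⟨ht0, ht⟩, fun c hc =>
      ⟨fun i => ⟨(hp c hc i).2, (hp c hc i).1.resolve_left (hp c hc i).2⟩, hp' c hc⟩⟩
    have e : (s + ∑ c ∈ S, (2 * n c + B.newPeriods c)) = s + ∑ c ∈ S, (2 * n c + nw (tx B) c) := by
      simp only [hnw]
    refine ⟨w ∘ Fin.cast e.symm, fun l => mem_ZO.mpr ?_, h2.comp _ (Fin.cast_injective _)⟩
    rcases h1 (Fin.cast e.symm l) with ⟨i, h⟩ | ⟨c, hc, ⟨i, h | h⟩ | ⟨h, h'⟩⟩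
    · exact Or.inl ⟨i, Or.inl h⟩
    · exact Or.inr ⟨c, hc, Or.inl ⟨i, Or.inl h⟩⟩
    · exact Or.inr ⟨c, hc, Or.inl ⟨i, Or.inr (Or.inr h)⟩⟩
    · exact Or.inr ⟨c, hc, Or.inr ⟨h, Or.inr (Or.inr h')⟩⟩
  · rintro h S s n t p ⟨⟨ht0, ht⟩, hp⟩
    obtain ⟨w, h1, h2⟩ := h S s n t p ht0 (fun c hc i => ⟨Or.inr ((hp c hc).1 i).2, ((hp c hc).1 i).1⟩) ht
      (fun c hc => (hp c hc).2)
    have e : (s + ∑ c ∈ S, (2 * n c + B.newPeriods c)) = s + ∑ c ∈ S, (2 * n c + nw (tx B) c) := by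
      simp only [hnw]
    refine ⟨w ∘ Fin.cast e, fun l => ?_, h2.comp _ (Fin.cast_injective _)⟩
    have h3 := transc h2 (Fin.cast e l)
    have h4 := mem_ZO.mp (h1 (Fin.cast e l))
    change w (Fin.cast e l) ∈ _
    generalize w (Fin.cast e l) = x at h3 h4 ⊢
    rcases h4 with ⟨i, h | h⟩ | ⟨c, hc, ⟨i, h | h | h⟩ | ⟨h, h'⟩⟩
    · exact Or.inl ⟨i, h⟩
    · exact absurd (ht0 i) (by rwa [← Set.mem_singleton_iff.mp h])
    · exact Or.inr ⟨c, hc, Or.inl ⟨i, Or.inl h⟩⟩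
    · exact absurd ((hp c hc).1 i).2 (by rwa [← h])
    · exact Or.inr ⟨c, hc, Or.inl ⟨i, Or.inr h⟩⟩
    · rcases h' with h' | h' | h'
      · exact absurd (H c).1 (by rwa [← h'])
      · exact absurd (H c).2 (by rwa [← h'])
      · exact Or.inr ⟨c, hc, Or.inr ⟨h, h'⟩⟩

theorem defect_eq {F : Fam Λ} (hF : finO (tp H) (tx F)) :
    F.defect = Us.LSys.dfc (A := OSys (tp H) (hu H)) (tx F) := by
  have h1 : (trd ℚ F.numbers).toNat = (Q241.SX.M.eRk (PN (tx F))).toNat := by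
    rw [numbers_eq]
    exact Pool.Agent.Q280.SD.trdeg_adjoin (PN (tx F)) (PN_rk hF)
  unfold Fam.defect Fam.weight Us.LSys.dfc Us.LSys.rk
  rw [h1]
  rfl

theorem tight_iff {F : Fam Λ} : F.Tight ↔ finO (tp H) (tx F) ∧
    ∀ W, oo Λ ≤ W → W < tx F →
      Us.LSys.dfc (A := OSys (tp H) (hu H)) W < Us.LSys.dfc (A := OSys (tp H) (hu H)) (tx F) := by
  constructor
  · rintro ⟨h2, h3⟩
    have hF : finO (tp H) (tx F) := (fin_iff H).mpr h2
    refine ⟨hF, fun W hW1 hW2 => ?_⟩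
    have hW : finO (tp H) W := finO_le hF (oo_le.mp hW1) hW2.le
    have h4 := h3 (fx H W (oo_le.mp hW1) (hW2.le.trans (le_tp H F))) hW2.le (fun h => hW2.ne (congrArg tx h))
    rwa [defect_eq H hF, defect_eq H (F := fx H W (oo_le.mp hW1) (hW2.le.trans (le_tp H F))) hW] at h4
  · rintro ⟨hF, h⟩
    refine ⟨(fin_iff H).mp hF, fun F' h2 h3 => ?_⟩
    have hW : finO (tp H) (tx F') := finO_le hF (tx_ge F') h2
    have h4 := h (tx F') (oo_le.mpr (tx_ge F')) (lt_of_le_of_ne h2 fun h => h3 (tx_inj h))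
    rw [defect_eq H hF, defect_eq H hW]
    exact h4

theorem trd_eq {S : Set ℂ} (hS : S.Finite) : ∃ r : ℕ, Q241.SX.M.eRk S = (r : ℕ∞) ∧ trd ℚ S = (r : Cardinal) := by
  have h1 : Q241.SX.M.eRk S < ⊤ := (Q241.SX.M.eRk_le_encard S).trans_lt hS.encard_lt_top
  obtain ⟨s, hs⟩ := ENat.ne_top_iff_exists.1 h1.ne
  refine ⟨s, hs.symm, ?_⟩
  have h2 := Pool.Agent.TH813.Rel.toENat_trdeg (k := ℚ) S
  change Cardinal.toENat (trd ℚ S) = Q241.SX.M.eRk S at h2
  rw [← hs] at h2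
  exact Cardinal.toENat_eq_natCast.mp h2

theorem mem_GO {S : Finset ι} {s : ℕ} {n : ι → ℕ} {t : Fin s → ℂ} {p : ∀ c, Fin (n c) → ℂ} {x : ℂ} :
    x ∈ GO S Λ t p ↔ x = 2 * Real.pi * Complex.I ∨ (∃ i, x ∈ mval (t i)) ∨
      ∃ c ∈ S, x ∈ perO (Λ c) ∨ ∃ i, x ∈ eval (Λ c) (p c i) := by
  unfold mval eval GO
  simp only [ex, pts, Set.mem_union, Set.mem_iUnion, Set.mem_insert_iff, Set.mem_singleton_iff,
    Set.mem_ofPred_eq]

include H in
theorem periods_rk (S : Finset ι) {s : ℕ} {n : ι → ℕ} (t : Fin s → ℂ) (p : ∀ c, Fin (n c) → ℂ)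
    (ht : ∀ i, IsAlgebraic ℚ (Complex.exp (t i)))
    (hp : ∀ c ∈ S, ∀ i, p c i ∉ (Λ c).lattice ∧ IsAlgebraic ℚ (℘[Λ c] (p c i))) :
    Q241.SX.M.eRk (periods Λ S t p) = Q241.SX.M.eRk (GO S Λ t p) := by
  have h1 : periods Λ S t p ⊆ GO S Λ t p := by
    rintro x (h | ⟨i, h⟩ | ⟨c, hc, h | ⟨i, h | h⟩⟩)
    · exact mem_GO.mpr (Or.inl h)
    · exact mem_GO.mpr (Or.inr (Or.inl ⟨i, Or.inl h⟩))
    · exact mem_GO.mpr (Or.inr (Or.inr ⟨c, hc, Or.inl (Or.inr (Or.inr h))⟩))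
    · exact mem_GO.mpr (Or.inr (Or.inr ⟨c, hc, Or.inr ⟨i, Or.inl h⟩⟩))
    · exact mem_GO.mpr (Or.inr (Or.inr ⟨c, hc, Or.inr ⟨i, Or.inr (Or.inr h)⟩⟩))
  have h2 : GO S Λ t p ⊆ Q241.SX.M.closure (periods Λ S t p) := by
    intro x hx
    rcases mem_GO.mp hx with h | ⟨i, h | h⟩ | ⟨c, hc, (h | h | h) | ⟨i, h | h | h⟩⟩
    · exact Q241.SX.subset_cl _ (Or.inl h)
    · exact Q241.SX.subset_cl _ (Or.inr (Or.inl ⟨i, h⟩))
    · rw [Set.mem_singleton_iff.mp h]
      exact Q241.SX.cl_alg (ht i)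
    · rw [h]
      exact Q241.SX.cl_alg (H c).1
    · rw [h]
      exact Q241.SX.cl_alg (H c).2
    · exact Q241.SX.subset_cl _ (Or.inr (Or.inr ⟨c, hc, Or.inl h⟩))
    · exact Q241.SX.subset_cl _ (Or.inr (Or.inr ⟨c, hc, Or.inr ⟨i, Or.inl h⟩⟩))
    · rw [h]
      exact Q241.SX.cl_alg (hp c hc i).2
    · exact Q241.SX.subset_cl _ (Or.inr (Or.inr ⟨c, hc, Or.inr ⟨i, Or.inr h⟩⟩))
  refine le_antisymm (Q241.SX.M.eRk_mono h1) ?_
  rw [← Q241.SX.M.eRk_closure_eq (periods Λ S t p)]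
  exact Q241.SX.M.eRk_mono h2

theorem periods_finite (S : Finset ι) {s : ℕ} {n : ι → ℕ} (t : Fin s → ℂ) (p : ∀ c, Fin (n c) → ℂ) :
    (periods Λ S t p).Finite := by
  refine (GO_finite (S := S) (Λ := Λ) (t := t) (p := p)).subset ?_
  rintro x (h | ⟨i, h⟩ | ⟨c, hc, h | ⟨i, h | h⟩⟩)
  · exact mem_GO.mpr (Or.inl h)
  · exact mem_GO.mpr (Or.inr (Or.inl ⟨i, Or.inl h⟩))
  · exact mem_GO.mpr (Or.inr (Or.inr ⟨c, hc, Or.inl (Or.inr (Or.inr h))⟩))
  · exact mem_GO.mpr (Or.inr (Or.inr ⟨c, hc, Or.inr ⟨i, Or.inl h⟩⟩))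
  · exact mem_GO.mpr (Or.inr (Or.inr ⟨c, hc, Or.inr ⟨i, Or.inr (Or.inr h)⟩⟩))

theorem conj_iff (C : ℕ) : Conj Λ C ↔ finO (tp H) (CO (tp H) (hu H)) ∧
    Us.LSys.dfc (A := OSys (tp H) (hu H)) (CO (tp H) (hu H)) ≤ C := by
  rw [← bound_CO, ← boundO_iff (hu H) (hu' H)]
  unfold Conj
  refine forall_congr' fun S => forall_congr' fun s => forall_congr' fun n => forall_congr' fun t =>
    forall_congr' fun p => ?_
  obtain ⟨r, h1, h2⟩ := trd_eq (periods_finite (Λ := Λ) S t p)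
  have e : galDim Λ S t p = gd S Λ t p := rfl
  rw [e, h2]
  constructor
  · intro h ht hp
    have hp' : ∀ c ∈ S, ∀ i, p c i ∉ (Λ c).lattice ∧ IsAlgebraic ℚ (℘[Λ c] (p c i)) := fun c hc i =>
      ⟨(hp c hc i).2, (hp c hc i).1.resolve_left (hp c hc i).2⟩
    have h3 := h ht hp'
    rw [periods_rk H S t p ht hp'] at h1
    rw [h1]
    exact_mod_cast h3
  · intro h ht hp
    have h3 := h ht fun c hc i => ⟨Or.inr (hp c hc i).2, (hp c hc i).1⟩
    rw [periods_rk H S t p ht hp] at h1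
    rw [h1] at h3
    exact_mod_cast h3

/-- every pair in the canonical family lies in a finite subfamily -/
theorem exists_sub (c : ι) (t p : ℂ) (ht : t ∈ (CO (tp H) (hu H)).1.1) (hp : p ∈ (CO (tp H) (hu H)).1.2 c) :
    ∃ V : XX Λ, V ≤ CO (tp H) (hu H) ∧ finO (tp H) V ∧ t ∈ V.1.1 ∧ p ∈ V.1.2 c := by
  have hoo : oo Λ ≤ CO (tp H) (hu H) := oo_le_CO (hu H)
  have htop : CO (tp H) (hu H) ≤ tp H := CO_le_top (hu H)
  classical
  by_cases hc : (CO (tp H) (hu H)).1.2 c = ⊥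
  · have h1 : mkF (Λ := Λ) (T₀ ⊔ Submodule.span ℚ {t}) ∅ (fun _ => ⊥) ≤ CO (tp H) (hu H) :=
      mkF_le (sup_le (oo_le.mp hoo) ((Submodule.span_singleton_le_iff_mem _ _).mpr ht))
        (fun c hc => absurd hc (Finset.notMem_empty c)) (fun c hc => absurd hc (Finset.notMem_empty c))
    refine ⟨_, h1, fin_mkF le_sup_left (fd_sup Pool.Agent.TH813.Ell.fd_P₁ (fd_span (Set.finite_singleton t)))
      (fun c hc => absurd hc (Finset.notMem_empty c)) (h1.trans htop), ?_, ?_⟩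
    · exact (le_sup_right : Submodule.span ℚ {t} ≤ _) (Submodule.mem_span_singleton_self t)
    · rw [hc, Submodule.mem_bot] at hp
      rw [hp]
      exact Submodule.zero_mem _
  · have h1 : mkF (Λ := Λ) (T₀ ⊔ Submodule.span ℚ {t}) {c}
        (fun d => if h : d = c then Submodule.span (Pool.Agent.TH813.Ell.kL (Λ d)) {p} else ⊥) ≤ CO (tp H) (hu H) := by
      refine mkF_le (sup_le (oo_le.mp hoo) ((Submodule.span_singleton_le_iff_mem _ _).mpr ht))
        (fun d hd => ?_) (fun d hd => ?_)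
      · rw [Finset.mem_singleton] at hd
        rw [hd]
        exact hc
      · rw [Finset.mem_singleton] at hd
        subst hd
        rw [dif_pos rfl]
        exact (Submodule.span_singleton_le_iff_mem _ _).mpr hp
    have h2 := mkF_mem (T := T₀ ⊔ Submodule.span ℚ {t}) (S := {c})
      (W := fun d => if h : d = c then Submodule.span (Pool.Agent.TH813.Ell.kL (Λ d)) {p} else ⊥)
      (Finset.mem_singleton_self c)
    rw [dif_pos rfl] at h2
    refine ⟨_, h1, fin_mkF le_sup_left (fd_sup Pool.Agent.TH813.Ell.fd_P₁ (fd_span (Set.finite_singleton t)))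
      (fun d hd => ?_) (h1.trans htop), ?_, ?_⟩
    · by_cases h : d = c
      · rw [dif_pos h]
        exact fd_span (Set.finite_singleton p)
      · rw [dif_neg h]
        exact fd_bot
    · exact (le_sup_right : Submodule.span ℚ {t} ≤ _) (Submodule.mem_span_singleton_self t)
    · rw [h2]
      exact (le_sup_right : Submodule.span (Pool.Agent.TH813.Ell.kL (Λ c)) {p} ≤ _)
        (Submodule.mem_span_singleton_self p)

end

/-- **Main result.** Let `Λ` be a family of elliptic curves over the algebraic numbers. There is a family `B` with the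
following properties.

(1) The conjecture holds exactly over `B`, and `B` is contained in every family with this property.
(2) `B` is the union of the finite families all of whose proper subfamilies have a smaller defect.
(3) The defect of a finite family `F` is at most the defect of `F ∩ B`.
(4) For every `C` the conjecture holds with the error `C` if and only if `B` is finite and the defect of `B` is at most
`C`.
(5) The conjecture holds if and only if `B = (2πi ℚ, 0)`. -/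
theorem result (Λ : ι → PeriodPair) (hΛ : ∀ c, IsAlgebraic ℚ (Λ c).g₂ ∧ IsAlgebraic ℚ (Λ c).g₃) : ∃ B : Fam Λ,
    (B.ExactOver ∧ ∀ B' : Fam Λ, B'.ExactOver → B.Le B') ∧
    (∀ c t p, (t ∈ B.T ∧ p ∈ B.P c) ↔ ∃ F : Fam Λ, F.Tight ∧ t ∈ F.T ∧ p ∈ F.P c) ∧
    (∀ F : Fam Λ, F.IsFinite → F.defect ≤ (F.inter B).defect) ∧
    (∀ C : ℕ, Conj Λ C ↔ B.IsFinite ∧ B.defect ≤ C) ∧
    (Conj Λ 0 ↔ B = Fam.base Λ) := by
  open Pool.Agent.Q280.ML Pool.Agent.Q280.ML.OM in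
  have hoo : oo Λ ≤ CO (tp hΛ) (hu hΛ) := oo_le_CO (hu hΛ)
  have htop : CO (tp hΛ) (hu hΛ) ≤ tp hΛ := CO_le_top (hu hΛ)
  refine ⟨fx hΛ (CO (tp hΛ) (hu hΛ)) (oo_le.mp hoo) htop,
    ⟨(exact_eq hΛ _).mpr (exact_CO (hu hΛ) (hu' hΛ)), fun B' h2 => ?_⟩, fun c t p => ?_,
    fun F h2 => ?_, fun C => ?_, ?_⟩
  · exact CO_le (hu hΛ) (hu' hΛ) (B := tx B') (tx_ge B') (le_tp hΛ _) ((exact_eq hΛ B').mp h2)
  · constructor
    · rintro ⟨ht, hp⟩
      obtain ⟨V, hV1, hV2, hV3, hV4⟩ := exists_sub hΛ c t p ht hp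
      obtain ⟨F, h2, h3⟩ := Bs.exists_tight_ge (Us.LSys.sm (A := OSys (tp hΛ) (hu hΛ))) hV2 hV1
      have h3' : V.1 ≤ F.1 := h3
      exact ⟨fx hΛ F h2.1.1 h2.1.2.1, (tight_iff hΛ).mpr h2, h3'.1 hV3, h3'.2 c hV4⟩
    · rintro ⟨F, h1, h2, h3⟩
      have h4 : tx F ≤ CO (tp hΛ) (hu hΛ) :=
        Bs.Tight.le_core (X := (OSys (tp hΛ) (hu hΛ)).X) (T := tx F) ((tight_iff hΛ).mp h1)
      have h4' : (tx F).1 ≤ (CO (tp hΛ) (hu hΛ)).1 := h4
      exact ⟨h4'.1 h2, h4'.2 c h3⟩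
  · have hF : finO (tp hΛ) (tx F) := (fin_iff hΛ).mpr h2
    have h3 := conc_CO (hu hΛ) (tx F) hF
    have hF' : finO (tp hΛ) (tx F ⊓ CO (tp hΛ) (hu hΛ)) :=
      finO_le hF (le_inf (tx_ge F) (oo_le.mp hoo)) inf_le_left
    have e : tx (F.inter (fx hΛ (CO (tp hΛ) (hu hΛ)) (oo_le.mp hoo) htop)) = tx F ⊓ CO (tp hΛ) (hu hΛ) := rfl
    rw [← e] at h3 hF'
    rw [← defect_eq hΛ hF, ← defect_eq hΛ hF'] at h3
    exact h3
  · rw [conj_iff hΛ]
    constructor
    · rintro ⟨h1, h2⟩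
      rw [← tx_fx hΛ (CO (tp hΛ) (hu hΛ)) (oo_le.mp hoo) htop] at h1 h2
      rw [← defect_eq hΛ h1] at h2
      exact ⟨(fin_iff hΛ).mp h1, h2⟩
    · rintro ⟨h1, h2⟩
      have h3 := (fin_iff hΛ).mpr h1
      rw [defect_eq hΛ h3] at h2
      exact ⟨h3, h2⟩
  · rw [conj_iff hΛ, ← bound_CO]
    have h1 : fx hΛ (CO (tp hΛ) (hu hΛ)) (oo_le.mp hoo) htop = Fam.base Λ ↔ CO (tp hΛ) (hu hΛ) = oo Λ :=
      ⟨fun h => congrArg tx h, fun h => tx_inj h⟩
    rw [h1, CO_base_iff, dfc_oo]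
    rfl

end Pool.Agent.Results.MP_ae0f86_nt.CanonicalFamily
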