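import Pool.Agent.Q50.LR.Main

namespace Pool.Agent.Results.MP_ae0f86_nt.LinearRelationsOfEnd

open Pool.Agent.Q50.LR

/-- Let `P` be an invertible complex matrix, for instance the period matrix of a Nori motive `M` over
the algebraically closed field `K`, and let `G` be an algebraic group over `K`, for instance the motivic
Galois group of `M`. If every `K`-linear relation between the products `P i j * P⁻¹ k l` (the periods of
`M ⊗ M^∨`) holds on `G P`, then the Lie algebra of every algebraic group `H` over `K` with a `K`-torsor
through `P` contains the derived algebra of the Lie algebra of `G`. -/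
theorem result (K : Type) [Field K] [Algebra K ℂ] [IsAlgClosed K] {n : ℕ} (P : GL (Fin n) ℂ)
    (G H : Subgroup (GL (Fin n) ℂ)) (hG : IsAlgebraicGroup K G) (hH : IsAlgebraicGroup K H)
    (hP : OnTorsor K H P) (hlin : LinearRelationsHold K G P) :
    ∀ X ∈ lieAlg G, ∀ Y ∈ lieAlg G, X * Y - Y * X ∈ lieAlg H :=
  derived hG hH hP hlin

end Pool.Agent.Results.MP_ae0f86_nt.LinearRelationsOfEnd
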