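import Pool.Agent.Q54.TG.Main

/-!
# The period conjecture for a variety and for a smooth affine cubic hypersurface

Let `q_0, …, q_r` be polynomials of degree at most two in `M` variables over the field `k`
(`k = ℚ̄` in the question). The cubic hypersurface `E_q : ∑ λ_j q_j(x) = 1` in the affine space of
dimension `M + r + 1` (`hypO q 1`) is smooth over `k`. We show:

* for every quasi-projective variety `X` over `k` whose homology has direct summands `ℚ(0)` and
  `ℚ(1)` (for instance every smooth projective variety of positive dimension) there is a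
  hypersurface `E_q` such that the Tannakian categories generated by the motives of the
  Borel-Moore homology of `X` and of `E_q` are equal; hence `X` and `E_q` have the same motivic
  Galois group and the same field of periods, and the period conjecture for `X` is equivalent to the
  period conjecture for `E_q`;
* the period conjecture for the Tannakian categories generated by `ℚ(1)` and by the homology of `X`,
  for all quasi-projective varieties `X`, smooth or not, is equivalent to the same statement for the
  hypersurfaces `E_q`, and implies the assertion of the question.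
-/

namespace Pool.Agent.Results.MP_ae0f86_nt.OneCubicForEachVariety

universe u v w

open Q54.CU Q54.TG CategoryTheory Limits MonoidalCategory AlgebraicGeometry

variable {k : Type u} [Field k] {𝓜 : Type w} [Category.{v} 𝓜] [Abelian 𝓜] [MonoidalCategory 𝓜]

/-- The transcendence degree `trdeg S` of the field generated by the periods of the objects in `S`
and the dimension `dimG S` of the motivic Galois group of the Tannakian category generated by `S`.
Both depend only on this category. -/
structure PeriodData (𝓜 : Type w) [Category.{v} 𝓜] [Abelian 𝓜] [MonoidalCategory 𝓜] where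
  trdeg : Set 𝓜 → ℕ
  dimG : Set 𝓜 → ℕ
  congr : ∀ S S' : Set 𝓜, tann S = tann S' → trdeg S = trdeg S' ∧ dimG S = dimG S'

/-- The period conjecture for the Tannakian category generated by `S`. -/
def PeriodConj (P : PeriodData.{v, w} 𝓜) (S : Set 𝓜) : Prop := P.trdeg S = P.dimG S

/-- The homology of `X` has direct summands `ℚ(0)` and `ℚ(1)`. For a smooth projective variety `X`
of positive dimension they are contained in `H_0(X)` and in `H_2(X)`. -/
def HasTateSummands (h : ℤ → SchO k → 𝓜) (L : 𝓜) (X : SchO k) : Prop :=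
  ∃ a b : ℤ, IsRetract (𝟙_ 𝓜) (h a X) ∧ IsRetract L (h b X)

/-- The period conjecture for the homology of `X` and `ℚ(1)`. -/
def ConjWithTate (P : PeriodData.{v, w} 𝓜) (h : ℤ → SchO k → 𝓜) (L : 𝓜) (X : SchO k) : Prop :=
  PeriodConj P (insert L (homs h X))

/-- **The period conjecture for a variety and for a smooth affine cubic hypersurface.** -/
theorem result [MonoidalPreadditive 𝓜] (h : ℤ → SchO k → 𝓜) (L L' : 𝓜) (hL : L ⊗ L' ≅ 𝟙_ 𝓜)
    (hh : IsMotHomology h L) (P : PeriodData.{v, w} 𝓜) :
    (∀ X : SchO k, IsVar X → HasAffineTorsor X → HasTateSummands h L X →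
      ∃ (M r : ℕ) (q : Fin (r + 1) → MvPolynomial (Fin M) k), (∀ j, (q j).totalDegree ≤ 2) ∧
        tann (homs h (hypO q 1)) = tann (homs h X) ∧
        (PeriodConj P (homs h (hypO q 1)) ↔ PeriodConj P (homs h X))) ∧
    (∀ X : SchO k, IsVar X → HasAffineTorsor X →
      ∃ (M r : ℕ) (q : Fin (r + 1) → MvPolynomial (Fin M) k), (∀ j, (q j).totalDegree ≤ 2) ∧
        tann (insert L (homs h (hypO q 1))) = tann (insert L (homs h X))) ∧
    ((∀ X : SchO k, IsVar X → HasAffineTorsor X → ConjWithTate P h L X) ↔
      ∀ (M r : ℕ) (q : Fin (r + 1) → MvPolynomial (Fin M) k), (∀ j, (q j).totalDegree ≤ 2) →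
        ConjWithTate P h L (hypO q 1)) ∧
    ((∀ (M r : ℕ) (q : Fin (r + 1) → MvPolynomial (Fin M) k), (∀ j, (q j).totalDegree ≤ 2) →
        ConjWithTate P h L (hypO q 1)) →
      ∀ X : SchO k, IsVar X → HasAffineTorsor X → HasTateSummands h L X →
        PeriodConj P (homs h X)) ∧
    ∀ (M r : ℕ) (q : Fin (r + 1) → MvPolynomial (Fin M) k), (∀ j, (q j).totalDegree ≤ 2) →
      IsVar (hypO q 1) ∧ Smooth (hypO q 1).hom ∧ IsAffine (hypO q 1).left ∧
        (hypPoly q 1).totalDegree ≤ 3 := by
  have hP : ∀ S S' : Set 𝓜, tann S = tann S' → (PeriodConj P S ↔ PeriodConj P S') := by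
    intro S S' hS
    obtain ⟨h1, h2⟩ := P.congr S S' hS
    unfold PeriodConj
    rw [h1, h2]
  have h2 : ∀ X : SchO k, IsVar X → HasAffineTorsor X →
      ∃ (M r : ℕ) (q : Fin (r + 1) → MvPolynomial (Fin M) k), (∀ j, (q j).totalDegree ≤ 2) ∧
        tann (insert L (homs h (hypO q 1))) = tann (insert L (homs h X)) := by
    intro X hX hT
    obtain ⟨s, M, r, q, hq, ⟨S⟩⟩ := exists_setup hh hX hT
    exact ⟨M, r, q, hq, tann_eq' hh hL S⟩
  have h3 : (∀ X : SchO k, IsVar X → HasAffineTorsor X → ConjWithTate P h L X) ↔
      ∀ (M r : ℕ) (q : Fin (r + 1) → MvPolynomial (Fin M) k), (∀ j, (q j).totalDegree ≤ 2) →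
        ConjWithTate P h L (hypO q 1) := by
    constructor
    · intro h M r q _
      exact h _ (isVar_hypO q 1) (hasAffineTorsor_of_affine (isVar_hypO q 1)
        (inferInstance : IsAffine (HypSch q (1 : k))))
    · intro h X hX hT
      obtain ⟨M, r, q, hq, h4⟩ := h2 X hX hT
      exact (hP _ _ h4).1 (h M r q hq)
  refine ⟨?_, h2, h3, ?_, ?_⟩
  · rintro X hX hT ⟨a, b, h0, h1⟩
    obtain ⟨s, M, r, q, hq, ⟨S⟩⟩ := exists_setup hh hX hT
    have h4 := tann_eq hh hL S h0 h1
    exact ⟨M, r, q, hq, h4, hP _ _ h4⟩
  · rintro h X hX hT ⟨a, b, -, h1⟩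
    have h4 := h3.2 h X hX hT
    refine (hP _ _ ?_).1 h4
    funext A
    refine propext ⟨fun hA C hC hX => hA C hC ?_, fun hA C hC hX => hA C hC fun B hB =>
      hX B (Or.inr hB)⟩
    rintro B (rfl | hB)
    · exact hC.retract h1 (hX _ ⟨b, rfl⟩)
    · exact hX B hB
  · intro M r q hq
    exact ⟨isVar_hypO q 1, smooth_hyp q, (inferInstance : IsAffine (HypSch q (1 : k))),
      totalDegree_hypPoly q 1 hq⟩

end Pool.Agent.Results.MP_ae0f86_nt.OneCubicForEachVariety
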