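import Mathlib
import Pool.Agent.Q149.FPgrow

/-!
# The formal periods of a Nori motive whose values are related in bounded degree

Let `K` be the field of algebraic numbers and `M` a Nori motive over `K`, which we may replace by
`M ⊕ M^∨`: it generates the same category, and then the algebra `A` of formal periods of
`⟨M⟩^{⊗,∨}` is generated by the matrix entries, that is, it is the algebra of the polynomial functions
on the torsor `X(M)(K) = G g₀` of the group `G = G(M)(K)`. Let `ev : A → ℂ` be the evaluation map. The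
period conjecture for `M` says that `ev` is injective (statement (iii) of the problem file); and that
`X(M)` is connected and `trdeg K(β) = dim G`, where `β` is the matrix of the periods of `M`.

Let `x_1, ..., x_n` be complex numbers which are algebraically independent over `K`. A number `y` is
`D`-related to `x` if `f(y, x) = 0` for some nonzero polynomial `f` over `K` of total degree at most
`D`.

(1) In every space `F` of formal periods of finite dimension, the formal periods with `D`-related value
form a *finite union of subspaces* `U`, and `dim U ≤ binom(D + n, n) + dim (F ∩ ker ev)`.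

(2) If the `x_i` are values of formal periods, this is best possible: there is a space `U` of dimension
`binom(D + n, n)` with `U ∩ ker ev = 0` such that all elements of `U + ker ev` have `D`-related values.

(3) If `A` has infinite dimension then the conjecture for `M` (injectivity of `ev`) is true if and only
if for some `n ≥ 1`, `D ≥ 1` and `x` the dimensions of the spaces of formal periods with `D`-related
values are bounded; and then they are at most `binom(D + n, n)` for all `n`, `D`, `x`.

(4) Let `x_1, ..., x_n`, `n ≥ 1`, be a transcendence basis of the field `K(β)` of the periods, `F_k` the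
space of the formal periods of `(1 ⊕ M)^{⊗ k}`, `r_k` its dimension and `D_k` the smallest `D` such that
the values of all elements of `F_k` are `D`-related to `x`. Then `k ≤ D_k ≤ C k` for all `k ≥ 1`; for
`D < k` the elements of `F_k` with `D`-related value form a finite union of subspaces of codimension at
least `binom(k + n, n) - binom(D + n, n)`; the equality `trdeg K(β) = dim G` holds if and only if
`D_k ^ n ≥ δ r_k` for some `δ > 0` and infinitely many `k`; and if it fails then
`D_k ^ n ≤ (C / k) r_k` for all `k ≥ 1`.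
-/

set_option autoImplicit false
set_option linter.unusedSectionVars false

open MvPolynomial Module Filter Topology

namespace Pool.Agent.Results.MP_ae0f86_nt.RelatedFormalPeriods

/-- A complex matrix `β` (the matrix of periods) together with a torsor of periods: a translate `G g₀` of
a group of matrices over a field `K` such that every polynomial over `K` which vanishes on `G g₀`
vanishes at `β`. -/
structure PeriodTorsor (K : Type) [Field K] [Algebra K ℂ] (N : ℕ) where
  /-- the group of the `K`-points of the motivic Galois group -/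
  G : Subgroup (GL (Fin N) K)
  /-- a `K`-point of the torsor of periods -/
  g₀ : GL (Fin N) K
  /-- the matrix of periods -/
  β : Matrix (Fin N) (Fin N) ℂ
  /-- `β` is a complex point of the torsor of periods -/
  mem_torsor : ∀ P : MvPolynomial (Fin N × Fin N) K,
    (∀ g ∈ G, eval (fun e => (g * g₀).val e.1 e.2) P = 0) → aeval (fun e => β e.1 e.2) P = 0

/-- The numbers `x_1, ..., x_n` and `y` satisfy a nonzero polynomial relation over `K` of total degree
at most `D`. -/
def Related (K : Type) [Field K] [Algebra K ℂ] {n : ℕ} (x : Fin n → ℂ) (D : ℕ) (y : ℂ) : Prop :=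
  ∃ f : MvPolynomial (Fin (n + 1)) K, f ≠ 0 ∧ f.totalDegree ≤ D ∧
    aeval (Fin.cons y x : Fin (n + 1) → ℂ) f = 0

namespace PeriodTorsor

variable {K : Type} [Field K] [Algebra K ℂ] {N : ℕ} (M : PeriodTorsor K N)

/-- The ideal of the polynomials which vanish on the torsor. -/
def vanishing : Ideal (MvPolynomial (Fin N × Fin N) K) where
  carrier := {P | ∀ g ∈ M.G, eval (fun e => (g * M.g₀).val e.1 e.2) P = 0}
  add_mem' := fun hP hQ g hg => by rw [map_add, hP g hg, hQ g hg, add_zero]
  zero_mem' := fun g _ => map_zero _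
  smul_mem' := fun a P hP g hg => by rw [smul_eq_mul, map_mul, hP g hg, mul_zero]

/-- The algebra `A` of formal periods: the polynomial functions on the torsor. -/
abbrev Formal : Type := MvPolynomial (Fin N × Fin N) K ⧸ M.vanishing

/-- The evaluation of formal periods. -/
noncomputable def ev : M.Formal →ₐ[K] ℂ :=
  Ideal.Quotient.liftₐ M.vanishing (aeval fun e => M.β e.1 e.2) fun P hP => M.mem_torsor P hP

/-- The kernel of the evaluation, as a space over `K`. -/
noncomputable def kernel : Submodule K M.Formal := LinearMap.ker M.ev.toLinearMap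

/-- The formal periods of `(1 ⊕ M)^{⊗ k}`: the classes of the polynomials of degree at most `k`. -/
noncomputable def upto (k : ℕ) : Submodule K M.Formal :=
  (restrictTotalDegree (Fin N × Fin N) K k).map (Ideal.Quotient.mkₐ K M.vanishing).toLinearMap

/-- The field `K(β)` of the periods. -/
noncomputable def field : IntermediateField K ℂ :=
  IntermediateField.adjoin K (Set.range fun e : Fin N × Fin N => M.β e.1 e.2)

/-- The equality of the conjecture: the transcendence degree of the field of the periods is the dimension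
of the torsor, the transcendence degree of the algebra of formal periods. -/
def DimensionEquality : Prop := Algebra.trdeg K M.field = Algebra.trdeg K M.Formal

/-- The smallest `D` such that the values of all formal periods of `(1 ⊕ M)^{⊗ k}` are `D`-related to
`x`. -/
noncomputable def degree {n : ℕ} (x : Fin n → ℂ) (k : ℕ) : ℕ :=
  sInf {D | ∀ p ∈ M.upto k, Related K x D (M.ev p)}

/-- The dimension `r_k` of the space of the formal periods of `(1 ⊕ M)^{⊗ k}`. -/
noncomputable def r (k : ℕ) : ℕ := finrank K (M.upto k)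

/-- All elements of `U` have a value which is `D`-related to `x`. -/
def AllRelated {n : ℕ} (x : Fin n → ℂ) (D : ℕ) (U : Submodule K M.Formal) : Prop :=
  ∀ p ∈ U, Related K x D (M.ev p)

/-- The elements of `F` whose value is `D`-related to `x` form a finite union of subspaces `U` with
`dim U + a ≤ c`. -/
def RelatedIsUnion {n : ℕ} (x : Fin n → ℂ) (D : ℕ) (F : Submodule K M.Formal) (a c : ℕ) : Prop :=
  ∃ UU : Set (Submodule K M.Formal), UU.Finite ∧
    (∀ p, (p ∈ F ∧ Related K x D (M.ev p)) ↔ ∃ U ∈ UU, p ∈ U) ∧ ∀ U ∈ UU, finrank K U + a ≤ c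

/-- Part (1): the formal periods with related values form a finite union of subspaces. -/
def ExceptionalSets : Prop :=
  ∀ (n : ℕ) (x : Fin n → ℂ) (D : ℕ) (F : Submodule K M.Formal), 0 < n →
    AlgebraicIndependent K x → FiniteDimensional K F →
    M.RelatedIsUnion x D F 0 ((D + n).choose n + finrank K (F ⊓ M.kernel : Submodule K M.Formal))

/-- Part (2): the bound for the dimension is attained. -/
def BoundAttained : Prop :=
  ∀ (n : ℕ) (x : Fin n → ℂ) (D : ℕ), AlgebraicIndependent K x → (∀ i, x i ∈ Set.range M.ev) →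
    1 ≤ D → ∃ U : Submodule K M.Formal, FiniteDimensional K U ∧
      finrank K U = (D + n).choose n ∧ U ⊓ M.kernel = ⊥ ∧ M.AllRelated x D (U ⊔ M.kernel)

/-- For some `n ≥ 1`, `x` and `D ≥ 1` the dimensions of the spaces of formal periods with `D`-related
values are bounded. -/
def BoundedForSome : Prop :=
  ∃ (n : ℕ) (x : Fin n → ℂ) (D C : ℕ), 0 < n ∧ AlgebraicIndependent K x ∧ 1 ≤ D ∧
    ∀ U : Submodule K M.Formal, FiniteDimensional K U → M.AllRelated x D U → finrank K U ≤ C

/-- For all `n ≥ 1`, `x` and `D` the dimensions of the spaces of formal periods with `D`-related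
values are at most `binom(D + n, n)`. -/
def BoundedForAll : Prop :=
  ∀ (n : ℕ) (x : Fin n → ℂ) (D : ℕ), 0 < n → AlgebraicIndependent K x →
    ∀ U : Submodule K M.Formal, M.AllRelated x D U →
      FiniteDimensional K U ∧ finrank K U ≤ (D + n).choose n

/-- `k ≤ D_k ≤ C k` for all `k ≥ 1`, and all values of elements of `F_k` are `D_k`-related to `x`. -/
def LinearDegree {n : ℕ} (x : Fin n → ℂ) : Prop :=
  ∃ C : ℕ, ∀ k : ℕ, 1 ≤ k →
    M.AllRelated x (M.degree x k) (M.upto k) ∧ k ≤ M.degree x k ∧ M.degree x k ≤ C * k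

/-- For `D < k` the elements of `F_k` with `D`-related value form a finite union of subspaces of
codimension at least `binom(k + n, n) - binom(D + n, n)`. -/
def SmallExceptionalSets {n : ℕ} (x : Fin n → ℂ) : Prop :=
  ∀ k D : ℕ, D < k →
    M.RelatedIsUnion x D (M.upto k) ((k + n).choose n) (M.r k + (D + n).choose n)

/-- The equality of the conjecture holds if and only if `D_k ^ n ≥ δ r_k` for some `δ > 0` and
infinitely many `k`. -/
def EqualityIffLargeDegree {n : ℕ} (x : Fin n → ℂ) : Prop :=
  M.DimensionEquality ↔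
    ∃ δ : ℝ, 0 < δ ∧ ∃ᶠ k : ℕ in atTop, δ * M.r k ≤ (M.degree x k : ℝ) ^ n

/-- If the equality does not hold then `D_k ^ n ≤ (C / k) r_k` for all `k ≥ 1`. -/
def SmallDegreeOtherwise {n : ℕ} (x : Fin n → ℂ) : Prop :=
  ¬ M.DimensionEquality →
    ∃ C : ℝ, ∀ k : ℕ, 1 ≤ k → (M.degree x k : ℝ) ^ n ≤ C / k * M.r k

section Lemmas

open Pool.Agent.Q57.PH Pool.Agent.Q149.FP

theorem vanishing_eq : M.vanishing = vI (pts M.G M.g₀) := by
  ext P
  rw [mem_vI]
  constructor
  · rintro hP _ ⟨g, hg, rfl⟩
    exact hP g hg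
  · intro hP g hg
    exact hP _ ⟨g, hg, rfl⟩

/-- the entries of `β` -/
def b (e : Fin N × Fin N) : ℂ := M.β e.1 e.2

theorem ev_mk (P : MvPolynomial (Fin N × Fin N) K) :
    M.ev (Ideal.Quotient.mk M.vanishing P) = aeval M.b P := rfl

theorem vI_le : vI (pts M.G M.g₀) ≤ RingHom.ker (aeval (R := K) M.b) := by
  intro P hP
  rw [← vanishing_eq] at hP
  rw [RingHom.mem_ker]
  exact M.mem_torsor P hP

theorem mem_upto {k : ℕ} {p : M.Formal} :
    p ∈ M.upto k ↔ ∃ P : MvPolynomial (Fin N × Fin N) K, P.totalDegree ≤ k ∧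
      Ideal.Quotient.mk M.vanishing P = p := by
  constructor
  · rintro ⟨P, hP, rfl⟩
    exact ⟨P, (mem_restrictTotalDegree (σ := Fin N × Fin N) (R := K) _ _).1 hP, rfl⟩
  · rintro ⟨P, hP, rfl⟩
    exact ⟨P, (mem_restrictTotalDegree (σ := Fin N × Fin N) (R := K) _ _).2 hP, rfl⟩

instance (k : ℕ) : FiniteDimensional K (M.upto k) := by
  unfold upto
  infer_instance

theorem upto_mono {i j : ℕ} (h : i ≤ j) : M.upto i ≤ M.upto j := by
  intro p hp
  obtain ⟨P, hP, rfl⟩ := M.mem_upto.1 hp
  exact M.mem_upto.2 ⟨P, hP.trans h, rfl⟩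

theorem upto_eq (k : ℕ) :
    M.upto k = vals K (fun e => Ideal.Quotient.mk M.vanishing (X e)) k := by
  ext p
  rw [mem_upto, mem_vals]
  refine exists_congr fun P => and_congr_right fun _ => ?_
  rw [aeval_mk]

/-- `r_k` as a growth function -/
theorem r_eq (k : ℕ) : finrank K (M.upto k) = hf K (xT (pts M.G M.g₀)) k := by
  rw [upto_eq]
  refine hf_eq_of_ker (xT (pts M.G M.g₀)) (fun e => Ideal.Quotient.mk M.vanishing (X e))
    (fun p => ?_) k
  rw [aeval_mk_eq_zero, vanishing_eq]
  rfl

/-- the dimension of the space of the values -/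
theorem p_eq (k : ℕ) : finrank K ((M.upto k).map M.ev.toLinearMap) = hf K M.b k := by
  have h1 : (M.upto k).map M.ev.toLinearMap = vals K M.b k := by
    ext z
    rw [mem_vals]
    constructor
    · rintro ⟨p, hp, rfl⟩
      obtain ⟨P, hP, rfl⟩ := M.mem_upto.1 hp
      exact ⟨P, hP, rfl⟩
    · rintro ⟨P, hP, rfl⟩
      exact ⟨Ideal.Quotient.mk M.vanishing P, M.mem_upto.2 ⟨P, hP, rfl⟩, rfl⟩
  rw [h1]
  rfl

theorem r_pos (k : ℕ) : 0 < finrank K (M.upto k) := by
  rw [M.r_eq]
  have h : (pts M.G M.g₀).Nonempty := ⟨ent (1 * M.g₀ : GL (Fin N) K).val, 1, M.G.one_mem, rfl⟩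
  exact hf_xT_pos h k

/-- a nonzero kernel is large -/
theorem kernel_large (hinf : ¬ FiniteDimensional K M.Formal) (h : ¬ Function.Injective M.ev)
    (m : ℕ) : ∃ U : Submodule K M.Formal, U ≤ M.kernel ∧ FiniteDimensional K U ∧
      m ≤ finrank K U := by
  have key : ∀ (J : Ideal (MvPolynomial (Fin N × Fin N) K)) (_ : J = vI (pts M.G M.g₀)),
      ¬ FiniteDimensional K (MvPolynomial (Fin N × Fin N) K ⧸ J) →
      ∀ I : Ideal (MvPolynomial (Fin N × Fin N) K ⧸ J), I ≠ ⊥ →
      ∃ U : Submodule K (MvPolynomial (Fin N × Fin N) K ⧸ J),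
        (∀ u ∈ U, u ∈ I) ∧ FiniteDimensional K U ∧ m ≤ finrank K U := by
    rintro J rfl h1 I hI
    exact exists_large M.G M.g₀ h1 I hI m
  obtain ⟨U, h1, h2, h3⟩ := key M.vanishing M.vanishing_eq hinf (RingHom.ker M.ev) (fun h0 =>
    h ((RingHom.injective_iff_ker_eq_bot _).2 h0))
  exact ⟨U, h1, h2, h3⟩

theorem related_iff {n : ℕ} (x : Fin n → ℂ) (D : ℕ) (y : ℂ) :
    Related K x D y ↔ Rl K x D y := Iff.rfl

theorem Related.mono {n : ℕ} {x : Fin n → ℂ} {D D' : ℕ} {y : ℂ} (h : Related K x D y)
    (hD : D ≤ D') : Related K x D' y := by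
  obtain ⟨f, h0, h1, h2⟩ := h
  exact ⟨f, h0, h1.trans hD, h2⟩

/-- the trivial relation of zero -/
theorem related_zero {n : ℕ} (x : Fin n → ℂ) {D : ℕ} (hD : 1 ≤ D) : Related K x D 0 := by
  refine ⟨X 0, X_ne_zero _, by rw [totalDegree_X]; exact hD, ?_⟩
  rw [aeval_X, Fin.cons_zero]

section closed

variable [IsAlgClosed K] [CharZero K]

/-- a transcendental period -/
theorem exists_transcendental (hinf : ¬ FiniteDimensional K M.Formal)
    (h : Function.Injective M.ev) : ∃ e, Transcendental K (M.b e) := by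
  by_contra hcon
  push Not at hcon
  apply hinf
  have hval : ∀ e, ∃ c : K, algebraMap K ℂ c = M.b e := by
    intro e
    have h1 : IsAlgebraic K (M.b e) := by
      by_contra h2
      exact hcon e h2
    have h4 : (minpoly K (M.b e)).degree = 1 :=
      IsAlgClosed.degree_eq_one_of_irreducible K (minpoly.irreducible h1.isIntegral)
    obtain ⟨c, hc⟩ := minpoly.mem_range_of_degree_eq_one K (M.b e) h4
    exact ⟨c, hc⟩
  choose c hc using hval
  have hle : LinearMap.range M.ev.toLinearMap ≤ Submodule.span K {(1 : ℂ)} := by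
    rintro _ ⟨p, rfl⟩
    obtain ⟨P, rfl⟩ := Ideal.Quotient.mk_surjective p
    rw [Submodule.mem_span_singleton]
    refine ⟨eval c P, ?_⟩
    change _ = aeval M.b P
    have h1 : M.b = fun e => algebraMap K ℂ (c e) := funext fun e => (hc e).symm
    have h2 := aeval_algebraMap_apply ℂ c P
    rw [h1, Algebra.smul_def, mul_one]
    exact h2.symm
  have h2 : FiniteDimensional K (LinearMap.range M.ev.toLinearMap) := by
    have : FiniteDimensional K (Submodule.span K {(1 : ℂ)}) :=
      FiniteDimensional.span_of_finite K (Set.finite_singleton _)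
    exact Submodule.finiteDimensional_of_le hle
  exact Module.Finite.equiv (LinearEquiv.ofInjective M.ev.toLinearMap h).symm

/-- a transcendence basis of the field of periods, as complex numbers -/
theorem indep_of_basis {n : ℕ} (x : Fin n → M.field) (hx : IsTranscendenceBasis K x) :
    AlgebraicIndependent K (fun i => (x i : ℂ)) :=
  hx.1.map' (f := M.field.val) Subtype.val_injective

theorem trdeg_eq {n : ℕ} (x : Fin n → M.field) (hx : IsTranscendenceBasis K x) :
    Algebra.trdeg K (IntermediateField.adjoin K (Set.range M.b)) = n := by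
  have h1 := hx.cardinalMk_eq_trdeg
  rw [Cardinal.mk_fin] at h1
  exact h1.symm

theorem choose_le {n : ℕ} (x : Fin n → M.field) (hx : IsTranscendenceBasis K x) (k : ℕ) :
    (k + n).choose n ≤ finrank K ((M.upto k).map M.ev.toLinearMap) := by
  rw [p_eq]
  exact choose_le_hf M.b (M.trdeg_eq x hx) k

/-- the periods are algebraic over the transcendence basis -/
theorem algebraic_over {n : ℕ} (x : Fin n → M.field) (hx : IsTranscendenceBasis K x)
    (e : Fin N × Fin N) :
    IsAlgebraic (IntermediateField.adjoin K (Set.range fun i => (x i : ℂ))) (M.b e) := by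
  have h1 : Algebra.IsAlgebraic (Algebra.adjoin K (Set.range x)) M.field := hx.isAlgebraic
  let be : M.field := ⟨M.b e, IntermediateField.subset_adjoin _ _ ⟨e, rfl⟩⟩
  obtain ⟨p, hp0, hp⟩ := h1.isAlgebraic be
  let E := IntermediateField.adjoin K (Set.range fun i => (x i : ℂ))
  have hmem : ∀ z : Algebra.adjoin K (Set.range x), ((z : M.field) : ℂ) ∈ E := by
    rintro ⟨z, hz⟩
    have h2 : (z : ℂ) ∈ (Algebra.adjoin K (Set.range x)).map M.field.val := ⟨z, hz, rfl⟩
    rw [AlgHom.map_adjoin] at h2
    have h3 : (M.field.val '' Set.range x) = Set.range fun i => (x i : ℂ) := by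
      rw [← Set.range_comp]
      rfl
    rw [h3] at h2
    exact IntermediateField.algebra_adjoin_le_adjoin K _ h2
  let ψ : Algebra.adjoin K (Set.range x) →+* E :=
    { toFun := fun z => ⟨((z : M.field) : ℂ), hmem z⟩
      map_one' := rfl
      map_mul' := fun _ _ => rfl
      map_zero' := rfl
      map_add' := fun _ _ => rfl }
  have hψ : Function.Injective ψ := by
    intro u v huv
    have h2 : ((u : M.field) : ℂ) = ((v : M.field) : ℂ) := congrArg (fun z : E => (z : ℂ)) huv
    exact Subtype.ext (Subtype.ext h2)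
  refine ⟨p.map ψ, (Polynomial.map_ne_zero_iff hψ).2 hp0, ?_⟩
  have h4 : Polynomial.aeval (M.b e) (p.map ψ) = ((Polynomial.aeval be p : M.field) : ℂ) := by
    rw [Polynomial.aeval_def, Polynomial.eval₂_map, Polynomial.aeval_def]
    have h5 := Polynomial.hom_eval₂ p (algebraMap (Algebra.adjoin K (Set.range x)) M.field)
      (M.field.val : M.field →+* ℂ) be
    exact h5.symm
  rw [h4, hp]
  rfl

/-- all values are related to the transcendence basis in linearly growing degree -/
theorem linear_degree {n : ℕ} (x : Fin n → M.field) (hx : IsTranscendenceBasis K x) :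
    ∃ C : ℕ, ∀ k : ℕ, 1 ≤ k → ∀ p ∈ M.upto k, Related K (fun i => (x i : ℂ)) (C * k) (M.ev p) := by
  obtain ⟨C, hC⟩ := exists_rel_linear (fun i => (x i : ℂ)) M.b (M.algebraic_over x hx)
  refine ⟨C, fun k hk p hp => ?_⟩
  obtain ⟨P, hP, rfl⟩ := M.mem_upto.1 hp
  exact hC k hk P hP

theorem degree_spec {n : ℕ} (x : Fin n → ℂ) (k : ℕ) (h : ∃ D, ∀ p ∈ M.upto k, Related K x D (M.ev p)) :
    ∀ p ∈ M.upto k, Related K x (M.degree x k) (M.ev p) :=
  Nat.sInf_mem (s := {D | ∀ p ∈ M.upto k, Related K x D (M.ev p)}) h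

theorem degree_le {n : ℕ} (x : Fin n → ℂ) (k D : ℕ) (h : ∀ p ∈ M.upto k, Related K x D (M.ev p)) :
    M.degree x k ≤ D :=
  Nat.sInf_le (s := {D | ∀ p ∈ M.upto k, Related K x D (M.ev p)}) h

/-- the values of the formal periods of degree at most `k` -/
theorem p_le_choose {n : ℕ} (hn : 0 < n) (x : Fin n → M.field) (hx : IsTranscendenceBasis K x)
    (k D : ℕ) (h : ∀ p ∈ M.upto k, Related K (fun i => (x i : ℂ)) D (M.ev p)) :
    finrank K ((M.upto k).map M.ev.toLinearMap) ≤ (D + n).choose n := by
  have h1 := finrank_le_of_related hn _ (M.indep_of_basis x hx) D M.ev (M.upto k) h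
  have h2 := finrank_map_add M.ev.toLinearMap (M.upto k)
  omega

theorem choose_le_pow (D n : ℕ) (hD : 1 ≤ D) : (D + n).choose n ≤ (n + 1) ^ n * D ^ n := by
  rw [← mul_pow]
  refine (Nat.choose_le_pow (D + n) n).trans ?_
  refine Nat.pow_le_pow_left ?_ n
  nlinarith

theorem pow_le_choose (k n : ℕ) : k ^ n ≤ n.factorial * (k + n).choose n := by
  have h1 : (k + 1) ^ n ≤ (k + n).descFactorial n := by
    have := Nat.pow_sub_le_descFactorial (k + n) n
    rwa [show k + n + 1 - n = k + 1 by omega] at this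
  rw [Nat.descFactorial_eq_factorial_mul_choose] at h1
  exact (Nat.pow_le_pow_left (Nat.le_succ k) n).trans h1

/-- part (4) -/
theorem degrees {n : ℕ} (hn : 0 < n) (x : Fin n → M.field) (hx : IsTranscendenceBasis K x) :
    (∃ C : ℕ, ∀ k : ℕ, 1 ≤ k →
      (∀ p ∈ M.upto k, Related K (fun i => (x i : ℂ)) (M.degree (fun i => (x i : ℂ)) k) (M.ev p)) ∧
      k ≤ M.degree (fun i => (x i : ℂ)) k ∧ M.degree (fun i => (x i : ℂ)) k ≤ C * k) ∧
    (∀ k D : ℕ, D < k → ∃ UU : Set (Submodule K M.Formal), UU.Finite ∧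
      (∀ p, (p ∈ M.upto k ∧ Related K (fun i => (x i : ℂ)) D (M.ev p)) ↔ ∃ U ∈ UU, p ∈ U) ∧
      ∀ U ∈ UU, finrank K U + (k + n).choose n ≤ finrank K (M.upto k) + (D + n).choose n) ∧
    (M.DimensionEquality ↔ ∃ δ : ℝ, 0 < δ ∧ ∃ᶠ k : ℕ in atTop,
      δ * finrank K (M.upto k) ≤ (M.degree (fun i => (x i : ℂ)) k : ℝ) ^ n) ∧
    (¬ M.DimensionEquality → ∃ C : ℝ, ∀ k : ℕ, 1 ≤ k →
      (M.degree (fun i => (x i : ℂ)) k : ℝ) ^ n ≤ C / k * finrank K (M.upto k)) := by
  obtain ⟨C, hC⟩ := M.linear_degree x hx
  have hspec : ∀ k : ℕ, 1 ≤ k → ∀ p ∈ M.upto k,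
      Related K (fun i => (x i : ℂ)) (M.degree (fun i => (x i : ℂ)) k) (M.ev p) :=
    fun k hk => M.degree_spec _ k ⟨C * k, hC k hk⟩
  have hlow : ∀ k : ℕ, 1 ≤ k → k ≤ M.degree (fun i => (x i : ℂ)) k := by
    intro k hk
    have h1 := (M.choose_le x hx k).trans (M.p_le_choose hn x hx k _ (hspec k hk))
    by_contra hcon
    push Not at hcon
    have h2 : (M.degree (fun i => (x i : ℂ)) k + n).choose n < (k + n).choose n := by
      have h3 : (M.degree (fun i => (x i : ℂ)) k + n + 1).choose n ≤ (k + n).choose n :=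
        Nat.choose_le_choose n (by omega)
      refine lt_of_lt_of_le ?_ h3
      obtain ⟨m, rfl⟩ : ∃ m, n = m + 1 := ⟨n - 1, by omega⟩
      have h4 : 0 < (M.degree (fun i => (x i : ℂ)) k + (m + 1)).choose m :=
        Nat.choose_pos (by omega)
      have h5 := Nat.choose_succ_succ' (M.degree (fun i => (x i : ℂ)) k + (m + 1)) m
      omega
    omega
  have hup : ∀ k : ℕ, 1 ≤ k → M.degree (fun i => (x i : ℂ)) k ≤ C * k :=
    fun k hk => M.degree_le _ k _ (hC k hk)
  have hT := homog M.G M.g₀
  have hdim : M.DimensionEquality ↔ Algebra.trdeg K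
      (IntermediateField.adjoin K (Set.range M.b)) = Algebra.trdeg K
        (MvPolynomial (Fin N × Fin N) K ⧸ vI (pts M.G M.g₀)) := by
    have h1 : ∀ (J : Ideal (MvPolynomial (Fin N × Fin N) K)) (_ : J = vI (pts M.G M.g₀)),
        Algebra.trdeg K (MvPolynomial (Fin N × Fin N) K ⧸ J) =
          Algebra.trdeg K (MvPolynomial (Fin N × Fin N) K ⧸ vI (pts M.G M.g₀)) := by
      rintro J rfl
      rfl
    unfold DimensionEquality
    rw [h1 M.vanishing M.vanishing_eq]
    rfl
  have hsparse : ¬ M.DimensionEquality → ∃ C : ℝ, 0 ≤ C ∧ ∀ k : ℕ, 1 ≤ k →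
      (M.degree (fun i => (x i : ℂ)) k : ℝ) ^ n ≤ C / k * finrank K (M.upto k) := by
    intro h
    rw [hdim] at h
    obtain ⟨C₁, hC₁, hs⟩ := sparse_case hT M.b M.vI_le h
    refine ⟨(C : ℝ) ^ n * n.factorial * C₁, by positivity, fun k hk => ?_⟩
    have hk' : (0 : ℝ) < k := by exact_mod_cast hk
    have h1 : (M.degree (fun i => (x i : ℂ)) k : ℝ) ≤ C * k := by exact_mod_cast hup k hk
    have h2 : (M.degree (fun i => (x i : ℂ)) k : ℝ) ^ n ≤ (C : ℝ) ^ n * (k : ℝ) ^ n := by
      rw [← mul_pow]
      exact pow_le_pow_left₀ (Nat.cast_nonneg _) h1 n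
    have h3 : (k : ℝ) ^ n ≤ n.factorial * hf K M.b k := by
      have h4 := pow_le_choose k n
      have h5 := M.choose_le x hx k
      rw [p_eq] at h5
      exact_mod_cast h4.trans (Nat.mul_le_mul_left _ h5)
    have h6 := hs k hk
    rw [← M.r_eq] at h6
    calc (M.degree (fun i => (x i : ℂ)) k : ℝ) ^ n ≤ (C : ℝ) ^ n * (k : ℝ) ^ n := h2
      _ ≤ (C : ℝ) ^ n * (n.factorial * hf K M.b k) := mul_le_mul_of_nonneg_left h3 (by positivity)
      _ ≤ (C : ℝ) ^ n * (n.factorial * (C₁ / k * finrank K (M.upto k))) := by gcongr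
      _ = (C : ℝ) ^ n * n.factorial * C₁ / k * finrank K (M.upto k) := by ring
  refine ⟨⟨C, fun k hk => ⟨hspec k hk, hlow k hk, hup k hk⟩⟩, fun k D hDk => ?_, ⟨fun h => ?_, ?_⟩,
    fun h => ?_⟩
  · obtain ⟨UU, h1, h2, h3⟩ := structure_thm hn _ (M.indep_of_basis x hx) D M.ev (M.upto k)
    refine ⟨UU, h1, h2, fun U hU => ?_⟩
    have h4 := h3 U hU
    have h5 := finrank_map_add M.ev.toLinearMap (M.upto k)
    have h6 := M.choose_le x hx k
    omega
  · rw [hdim] at h
    have h1 := dense_case hT M.b M.vI_le h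
    have hc : 0 < (comps (pts M.G M.g₀)).card := by
      obtain ⟨Q, hQ, -⟩ := exists_comp M.b M.vI_le
      exact Finset.card_pos.2 ⟨Q, hQ⟩
    have hc' : (0 : ℝ) < (comps (pts M.G M.g₀)).card := by exact_mod_cast hc
    set c : ℝ := ((comps (pts M.G M.g₀)).card : ℝ) with hcdef
    have h2 : 1 / (2 * c) < 1 / c := one_div_lt_one_div_of_lt hc' (by linarith)
    have h3 := h1.eventually_const_lt h2
    refine ⟨1 / (2 * c) / ((n : ℝ) + 1) ^ n, by positivity, ?_⟩
    refine ((h3.and (eventually_ge_atTop 1)).mono fun k hk => ?_).frequently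
    obtain ⟨h4, hk1⟩ := hk
    rw [← M.r_eq] at h4
    have hr : (0 : ℝ) < finrank K (M.upto k) := by exact_mod_cast M.r_pos k
    rw [lt_div_iff₀ hr] at h4
    have h5 : (hf K M.b k : ℝ) ≤ ((n : ℝ) + 1) ^ n * (M.degree (fun i => (x i : ℂ)) k : ℝ) ^ n := by
      have h6 := M.p_le_choose hn x hx k _ (hspec k hk1)
      rw [p_eq] at h6
      have h7 := choose_le_pow (M.degree (fun i => (x i : ℂ)) k) n (hk1.trans (hlow k hk1))
      exact_mod_cast h6.trans h7
    have hn1 : (0 : ℝ) < ((n : ℝ) + 1) ^ n := by positivity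
    rw [div_mul_eq_mul_div, div_le_iff₀ hn1]
    linarith
  · rintro ⟨δ, hδ, hfreq⟩
    by_contra hcon
    obtain ⟨C₂, hC₂, hb⟩ := hsparse hcon
    have hev : ∀ᶠ k : ℕ in atTop, C₂ / δ < k := by
      exact (tendsto_natCast_atTop_atTop (R := ℝ)).eventually_gt_atTop _
    obtain ⟨k, h1, h2, h3⟩ := (hfreq.and_eventually (hev.and (eventually_ge_atTop 1))).exists
    have hr : (0 : ℝ) < finrank K (M.upto k) := by exact_mod_cast M.r_pos k
    have h4 := h1.trans (hb k h3)
    have h5 : δ ≤ C₂ / k := le_of_mul_le_mul_right h4 hr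
    have hk' : (0 : ℝ) < k := by exact_mod_cast h3
    rw [le_div_iff₀ hk'] at h5
    rw [div_lt_iff₀ hδ] at h2
    linarith
  · obtain ⟨C₂, -, hb⟩ := hsparse h
    exact ⟨C₂, hb⟩

end closed

end Lemmas

end PeriodTorsor

/-- **Main result.** `K` is an algebraically closed subfield of `ℂ`, for instance the field of algebraic
numbers. -/
theorem result {K : Type} [Field K] [Algebra K ℂ] [IsAlgClosed K] {N : ℕ} (M : PeriodTorsor K N) :
    M.ExceptionalSets ∧ M.BoundAttained ∧
    (¬ FiniteDimensional K M.Formal → (Function.Injective M.ev ↔ M.BoundedForSome)) ∧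
    (Function.Injective M.ev → M.BoundedForAll) ∧
    ∀ (n : ℕ) (x : Fin n → M.field), 0 < n → IsTranscendenceBasis K x →
      M.LinearDegree (fun i => (x i : ℂ)) ∧ M.SmallExceptionalSets (fun i => (x i : ℂ)) ∧
      M.EqualityIffLargeDegree (fun i => (x i : ℂ)) ∧
      M.SmallDegreeOtherwise (fun i => (x i : ℂ)) := by
  have hchar : CharZero K := (RingHom.charZero_iff (algebraMap K ℂ).injective).2 inferInstance
  have hinjdim : Function.Injective M.ev → ∀ (n : ℕ) (x : Fin n → ℂ) (D : ℕ), 0 < n →
      AlgebraicIndependent K x → ∀ U : Submodule K M.Formal,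
        M.AllRelated x D U → FiniteDimensional K U ∧
          finrank K U ≤ (D + n).choose n := by
    intro h n x D hn hx U hU
    have hker : ∀ W : Submodule K M.Formal, finrank K (W ⊓ LinearMap.ker M.ev.toLinearMap :
        Submodule K M.Formal) = 0 := by
      intro W
      have h1 : LinearMap.ker M.ev.toLinearMap = ⊥ := LinearMap.ker_eq_bot.2 h
      rw [h1, inf_bot_eq, finrank_bot]
    have hfd : FiniteDimensional K U := by
      by_contra hinf
      -- a large finite dimensional subspace
      have h2 : ∀ m : ℕ, ∃ W : Submodule K M.Formal, W ≤ U ∧ FiniteDimensional K W ∧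
          finrank K W = m := by
        intro m
        have h3 : ¬ Module.Finite K U := hinf
        obtain ⟨s, hs1, hs2⟩ : ∃ s : Finset U, s.card = m ∧
            LinearIndependent K (fun i : s => (i : U)) := by
          have h4 : Cardinal.aleph0 ≤ Module.rank K U := by
            rw [← not_lt]
            intro hlt
            exact h3 (Module.rank_lt_aleph0_iff.1 hlt)
          have h5 : (m : Cardinal) ≤ Module.rank K U := (Cardinal.natCast_lt_aleph0.le).trans h4
          exact le_rank_iff_exists_linearIndependent_finset.1 h5 |> fun ⟨s, h6, h7⟩ => ⟨s, h6, h7⟩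
        refine ⟨(Submodule.span K (s : Set U)).map U.subtype, Submodule.map_subtype_le _ _, ?_, ?_⟩
        · have : FiniteDimensional K (Submodule.span K (s : Set U)) :=
            FiniteDimensional.span_finset K s
          infer_instance
        · rw [Submodule.finrank_map_subtype_eq]
          rw [finrank_span_finset_eq_card (s := s) hs2, hs1]
      obtain ⟨W, hWU, hWfd, hW⟩ := h2 ((D + n).choose n + 1)
      have h8 := Pool.Agent.Q149.FP.finrank_le_of_related hn x hx D M.ev W fun p hp => hU p (hWU hp)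
      rw [hker, hW] at h8
      omega
    refine ⟨hfd, ?_⟩
    have h8 := Pool.Agent.Q149.FP.finrank_le_of_related hn x hx D M.ev U hU
    rwa [hker, add_zero] at h8
  refine ⟨fun n x D F hn hx hF => Pool.Agent.Q149.FP.structure_thm hn x hx D M.ev F |>
      fun ⟨UU, h1, h2, h3⟩ => ⟨UU, h1, h2, fun U hU => (by rw [add_zero]; exact h3 U hU)⟩,
    fun n x D hx hr hD => Pool.Agent.Q149.FP.sharp x hx hD M.ev hr, fun hinf => ⟨fun h => ?_, ?_⟩,
    hinjdim, fun n x hn hx => M.degrees hn x hx⟩
  · obtain ⟨e, he⟩ := M.exists_transcendental hinf h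
    have hx : AlgebraicIndependent K (fun _ : Fin 1 => M.b e) := by
      rw [algebraicIndependent_unique_type_iff]
      exact he
    exact ⟨1, fun _ => M.b e, 1, _, one_pos, hx, le_rfl, fun U _ hU =>
      (hinjdim h 1 _ 1 one_pos hx U hU).2⟩
  · rintro ⟨n, x, D, C, hn, hx, hD, hC⟩
    by_contra hcon
    obtain ⟨U, hU1, hU2, hU3⟩ := M.kernel_large hinf hcon (C + 1)
    have h1 := hC U hU2 fun p hp => by
      have h2 : M.ev p = 0 := hU1 hp
      rw [h2]
      exact PeriodTorsor.related_zero x hD
    omega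

end Pool.Agent.Results.MP_ae0f86_nt.RelatedFormalPeriods
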